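import Pool.Agent.Helper50.KP.GoalsF

set_option autoImplicit false

namespace Pool.Agent.Helper59.KP

open Pool.Agent.Helper50.KP

theorem aux {G : Type} [Group G] [Fintype G] [DecidableEq G] (w : Word) :
    ∀ (L : List G) (T : Finset (List G)), (∀ c ∈ T, Good w c L) → T.card ≤ cnt w L := by
  induction w with
  | nil =>
    intro L T hT
    by_cases hL : L = []
    · have : T ⊆ {[]} := by
        intro c hc
        have := (hT c hc).1
        simp [this]
      have h1 := Finset.card_le_card this
      simpa [cnt, hL] using h1
    · have : T = ∅ := by
        rw [Finset.eq_empty_iff_forall_notMem]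
        intro c hc
        exact hL (hT c hc).2
      simp [this]
  | cons e w ih =>
    intro L T hT
    obtain ⟨K, k⟩ := e
    cases K with
    | cup =>
      have hinj : Function.Injective (fun g : G => [g, g⁻¹]) := by
        intro a b h
        simpa using h
      have hcnt : cnt ((Kind.cup, k) :: w) L =
          ∑ g : G, cnt w (L.take k ++ [g, g⁻¹] ++ L.drop k) := by
        simp only [cnt, loc, Kind.i]
        rw [Finset.sum_image (fun a _ b _ h => hinj h)]
        simp
      rw [hcnt]
      have hfib : T.card = ∑ g : G, (T.filter fun c => c.headD 1 = g).card := by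
        exact Finset.card_eq_sum_card_fiberwise (fun x _ => Finset.mem_univ _)
      rw [hfib]
      refine Finset.sum_le_sum fun g _ => ?_
      have hh : ∀ c ∈ (T.filter fun c => c.headD 1 = g), ∃ c', c = g :: c' ∧
          Good w c' (L.take k ++ [g, g⁻¹] ++ L.drop k) := by
        intro c hc
        rw [Finset.mem_filter] at hc
        obtain ⟨h, c', rfl, hgood⟩ := hT c hc.1
        have hg : h = g := by simpa using hc.2
        subst hg
        exact ⟨c', rfl, by simpa using hgood⟩
      have hcard : (T.filter fun c => c.headD 1 = g).card =
          ((T.filter fun c => c.headD 1 = g).image List.tail).card := by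
        rw [Finset.card_image_of_injOn]
        intro a ha b hb hab
        obtain ⟨a', rfl, _⟩ := hh a ha
        obtain ⟨b', rfl, _⟩ := hh b hb
        simpa using hab
      rw [hcard]
      apply ih
      intro c hc
      rw [Finset.mem_image] at hc
      obtain ⟨d, hd, rfl⟩ := hc
      obtain ⟨c', rfl, hgood⟩ := hh d hd
      simpa using hgood
    | cap =>
      rcases T.eq_empty_or_nonempty with rfl | ⟨c0, hc0⟩
      · simp
      · obtain ⟨g, R, hL, _⟩ := hT c0 hc0
        have hd : L.drop (k + 2) = R := by
          have : L.drop (k + 2) = (L.drop k).drop 2 := by rw [List.drop_drop]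
          rw [this, hL]; rfl
        have hcnt : cnt ((Kind.cap, k) :: w) L = cnt w (L.take k ++ R) := by
          simp [cnt, Kind.i, hL, loc, hd]
        rw [hcnt]
        apply ih
        intro c hc
        obtain ⟨g', R', hL', hgood⟩ := hT c hc
        rw [hL] at hL'
        have : R = R' := by
          simp only [List.cons.injEq] at hL'
          exact hL'.2.2
        rw [this]; exact hgood
    | X s =>
      rcases T.eq_empty_or_nonempty with rfl | ⟨c0, hc0⟩
      · simp
      · obtain ⟨g, h, R, hL, _⟩ := hT c0 hc0
        have hd : L.drop (k + 2) = R := by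
          have : L.drop (k + 2) = (L.drop k).drop 2 := by rw [List.drop_drop]
          rw [this, hL]; rfl
        have hcnt : cnt ((Kind.X s, k) :: w) L = cnt w (L.take k ++ xr s g h ++ R) := by
          simp [cnt, Kind.i, hL, loc, hd]
        rw [hcnt]
        apply ih
        intro c hc
        obtain ⟨g', h', R', hL', hgood⟩ := hT c hc
        rw [hL] at hL'
        simp only [List.cons.injEq] at hL'
        obtain ⟨rfl, rfl, rfl⟩ := hL'
        exact hgood

theorem gCRD : CRD := fun _ _ _ _ w L T hT => aux w L T hT

end Pool.Agent.Helper59.KP
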